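import Pool.Agent.Helper54.DI.StmtsB

namespace Pool.Agent.Helper7.DI

open Finset Filter Topology Pool.Agent.Helper54.ETR Pool.Agent.Helper54.Poly
open Pool.Agent.Helper54.DI

theorem tren (x : ℕ → ℝ) (g : ℕ → ℕ) (t : Term) :
    (t.ren g).eval x = t.eval (fun i => x (g i)) := by
  induction t with
  | zero => rfl
  | one => rfl
  | var i => rfl
  | add s t ihs iht => simp only [Term.ren, Term.eval, ihs, iht]
  | sub s t ihs iht => simp only [Term.ren, Term.eval, ihs, iht]
  | mul s t ihs iht => simp only [Term.ren, Term.eval, ihs, iht]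

theorem fren (x : ℕ → ℝ) (g : ℕ → ℕ) (p : Form) :
    (p.ren g).Holds x ↔ p.Holds (fun i => x (g i)) := by
  induction p with
  | lt s t => simp only [Form.ren, Form.Holds, tren]
  | le s t => simp only [Form.ren, Form.Holds, tren]
  | eq s t => simp only [Form.ren, Form.Holds, tren]
  | ge s t => simp only [Form.ren, Form.Holds, tren]
  | gt s t => simp only [Form.ren, Form.Holds, tren]
  | and p q ihp ihq => simp only [Form.ren, Form.Holds, ihp, ihq]
  | or p q ihp ihq => simp only [Form.ren, Form.Holds, ihp, ihq]
  | not p ihp => simp only [Form.ren, Form.Holds, ihp]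

theorem tloc (n : ℕ) (x y : ℕ → ℝ) (h : ∀ i < n, x i = y i) (t : Term) (ht : t.Below n) :
    t.eval x = t.eval y := by
  induction t with
  | zero => rfl
  | one => rfl
  | var i => exact h i ht
  | add s t ihs iht => simp only [Term.eval, ihs ht.1, iht ht.2]
  | sub s t ihs iht => simp only [Term.eval, ihs ht.1, iht ht.2]
  | mul s t ihs iht => simp only [Term.eval, ihs ht.1, iht ht.2]

theorem floc (n : ℕ) (x y : ℕ → ℝ) (h : ∀ i < n, x i = y i) (p : Form) (hp : FBelow n p) :
    p.Holds x ↔ p.Holds y := by
  induction p with
  | lt s t =>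
    have h1 := hp (s, t) (by simp [Form.atoms])
    simp only [Form.Holds, tloc n x y h s h1.1, tloc n x y h t h1.2]
  | le s t =>
    have h1 := hp (s, t) (by simp [Form.atoms])
    simp only [Form.Holds, tloc n x y h s h1.1, tloc n x y h t h1.2]
  | eq s t =>
    have h1 := hp (s, t) (by simp [Form.atoms])
    simp only [Form.Holds, tloc n x y h s h1.1, tloc n x y h t h1.2]
  | ge s t =>
    have h1 := hp (s, t) (by simp [Form.atoms])
    simp only [Form.Holds, tloc n x y h s h1.1, tloc n x y h t h1.2]
  | gt s t =>
    have h1 := hp (s, t) (by simp [Form.atoms])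
    simp only [Form.Holds, tloc n x y h s h1.1, tloc n x y h t h1.2]
  | and p q ihp ihq =>
    have hp1 : FBelow n p := fun a ha => hp a (by simp [Form.atoms, ha])
    have hp2 : FBelow n q := fun a ha => hp a (by simp [Form.atoms, ha])
    simp only [Form.Holds, ihp hp1, ihq hp2]
  | or p q ihp ihq =>
    have hp1 : FBelow n p := fun a ha => hp a (by simp [Form.atoms, ha])
    have hp2 : FBelow n q := fun a ha => hp a (by simp [Form.atoms, ha])
    simp only [Form.Holds, ihp hp1, ihq hp2]
  | not p ihp =>
    have hp1 : FBelow n p := fun a ha => hp a (by simp only [Form.atoms]; exact ha)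
    simp only [Form.Holds, ihp hp1]

theorem gmem (l : List ℕ) (j B : ℕ) (h : ∀ a ∈ l, a < B) (hj : j < l.length) :
    l.getD j 0 < B := by
  rw [List.getD_eq_getElem _ _ hj]
  exact h _ (List.getElem_mem hj)

theorem iloc (L : List Form) (B N : ℕ) : ∀ (l : List (ℕ × List ℕ)) (t : ℕ),
    (∀ it ∈ l, it.1 < L.length ∧ ∀ a ∈ it.2, a < B) → ∀ x y : ℕ → ℝ,
    (∀ i < B, x i = y i) → (∀ i, B + N * t ≤ i → x i = y i) →
    ((inst L B N t l).Holds x ↔ (inst L B N t l).Holds y) := by
  intro l
  induction l with
  | nil =>
    intro t _ x y _ _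
    simp only [inst, dF, Form.Holds, Term.eval, le_refl]
  | cons it l ih =>
    intro t hl x y h1 h2
    have hit := hl it (List.mem_cons_self)
    have hl' : ∀ it' ∈ l, it'.1 < L.length ∧ ∀ a ∈ it'.2, a < B :=
      fun it' h' => hl it' (List.mem_cons_of_mem _ h')
    simp only [inst, Form.Holds]
    apply and_congr
    · rw [fren, fren]
      have he : (fun i => x (if i < it.2.length then it.2.getD i 0 else B + N * t + i)) =
          (fun i => y (if i < it.2.length then it.2.getD i 0 else B + N * t + i)) := by
        funext i
        by_cases hi : i < it.2.length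
        · rw [if_pos hi]
          exact h1 _ (gmem _ _ _ hit.2 hi)
        · rw [if_neg hi]
          exact h2 _ (by omega)
      rw [he]
    · apply ih (t + 1) hl' x y h1
      intro i hi
      apply h2
      rw [Nat.mul_add] at hi
      omega

theorem key (L : List Form) (B N : ℕ) (hL : ∀ ψ ∈ L, FBelow N ψ) :
    ∀ (l : List (ℕ × List ℕ)) (t : ℕ), (∀ it ∈ l, it.1 < L.length ∧ ∀ a ∈ it.2, a < B) →
    ∀ v : ℕ → ℝ, ((∃ x : ℕ → ℝ, (∀ i < B, x i = v i) ∧ (inst L B N t l).Holds x) ↔
      ∀ it ∈ l, ∃ w : ℕ → ℝ, (∀ j < it.2.length, w j = v (it.2.getD j 0)) ∧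
        (L.getD it.1 dF).Holds w) := by
  intro l
  induction l with
  | nil =>
    intro t _ v
    constructor
    · intro _ it hit
      exact absurd hit (List.not_mem_nil)
    · intro _
      refine ⟨v, fun i _ => rfl, ?_⟩
      simp only [inst, dF, Form.Holds, Term.eval, le_refl]
  | cons it l ih =>
    intro t hl v
    have hit := hl it (List.mem_cons_self)
    have hl' : ∀ it' ∈ l, it'.1 < L.length ∧ ∀ a ∈ it'.2, a < B :=
      fun it' h' => hl it' (List.mem_cons_of_mem _ h')
    constructor
    · rintro ⟨x, hx1, hx2⟩
      simp only [inst, Form.Holds] at hx2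
      intro it' hit'
      rcases List.mem_cons.mp hit' with h | h
      · subst h
        refine ⟨fun i => x (if i < it'.2.length then it'.2.getD i 0 else B + N * t + i), ?_, ?_⟩
        · intro j hj
          simp only [if_pos hj]
          exact hx1 _ (gmem _ _ _ hit.2 hj)
        · exact (fren _ _ _).mp hx2.1
      · exact (ih (t + 1) hl' v).mp ⟨x, hx1, hx2.2⟩ it' h
    · intro h
      obtain ⟨x', hx1, hx2⟩ := (ih (t + 1) hl' v).mpr
        (fun it' h' => h it' (List.mem_cons_of_mem _ h'))
      obtain ⟨w, hw1, hw2⟩ := h it (List.mem_cons_self)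
      refine ⟨fun i => if B + N * t ≤ i ∧ i < B + N * (t + 1) then w (i - (B + N * t)) else x' i,
        ?_, ?_⟩
      · intro i hi
        have hn : ¬ (B + N * t ≤ i ∧ i < B + N * (t + 1)) := by
          intro h3
          have h4 := h3.1
          omega
        simp only [if_neg hn]
        exact hx1 i hi
      · simp only [inst, Form.Holds]
        constructor
        · rw [fren]
          have hb : FBelow N (L.getD it.1 dF) := by
            rw [List.getD_eq_getElem _ _ hit.1]
            exact hL _ (List.getElem_mem hit.1)
          refine (floc N _ w ?_ _ hb).mpr hw2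
          intro j hj
          by_cases hj2 : j < it.2.length
          · have h5 := gmem _ _ _ hit.2 hj2
            have hn : ¬ (B + N * t ≤ it.2.getD j 0 ∧ it.2.getD j 0 < B + N * (t + 1)) := by
              intro h3
              have h4 := h3.1
              omega
            simp only [if_pos hj2, if_neg hn]
            rw [hx1 _ h5, hw1 j hj2]
          · have hp : B + N * t ≤ B + N * t + j ∧ B + N * t + j < B + N * (t + 1) := by
              rw [Nat.mul_add]
              omega
            simp only [if_neg hj2, if_pos hp]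
            congr 1
            omega
        · refine (iloc L B N l (t + 1) hl' _ x' ?_ ?_).mpr hx2
          · intro i hi
            have hn : ¬ (B + N * t ≤ i ∧ i < B + N * (t + 1)) := by
              intro h3
              have h4 := h3.1
              omega
            simp only [if_neg hn]
          · intro i hi
            have hn : ¬ (B + N * t ≤ i ∧ i < B + N * (t + 1)) := by
              intro h3
              have h4 := h3.2
              omega
            simp only [if_neg hn]

theorem st_INST : ST_INST := by
  intro L B N hL _ l t hl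
  constructor
  · rintro ⟨x, hx⟩
    exact ⟨x, (key L B N hL l t hl x).mp ⟨x, fun i _ => rfl, hx⟩⟩
  · rintro ⟨v, hv⟩
    obtain ⟨x, _, hx⟩ := (key L B N hL l t hl v).mpr hv
    exact ⟨x, hx⟩

theorem tren_tren (f g : ℕ → ℕ) (t : Term) : (t.ren f).ren g = t.ren (fun i => g (f i)) := by
  induction t with
  | zero => rfl
  | one => rfl
  | var i => rfl
  | add s t ihs iht => simp only [Term.ren, ihs, iht]
  | sub s t ihs iht => simp only [Term.ren, ihs, iht]
  | mul s t ihs iht => simp only [Term.ren, ihs, iht]

theorem fren_fren (f g : ℕ → ℕ) (p : Form) : (p.ren f).ren g = p.ren (fun i => g (f i)) := by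
  induction p with
  | lt s t => simp only [Form.ren, tren_tren]
  | le s t => simp only [Form.ren, tren_tren]
  | eq s t => simp only [Form.ren, tren_tren]
  | ge s t => simp only [Form.ren, tren_tren]
  | gt s t => simp only [Form.ren, tren_tren]
  | and p q ihp ihq => simp only [Form.ren, ihp, ihq]
  | or p q ihp ihq => simp only [Form.ren, ihp, ihq]
  | not p ihp => simp only [Form.ren, ihp]

theorem cons_ren (Γ : List Form) (g : ℕ → ℕ) (p : Form) (hp : Cons Γ p) : Cons Γ (p.ren g) := by
  induction hp with
  | one i => exact Cons.one (g i)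
  | add i j k => exact Cons.add (g i) (g j) (g k)
  | le i j => exact Cons.le (g i) (g j)
  | pos f h =>
    rw [fren_fren]
    exact Cons.pos _ h
  | neg f h =>
    simp only [Form.ren, fren_fren]
    exact Cons.neg _ h
  | and _ _ ih1 ih2 => exact Cons.and ih1 ih2

theorem st_INSC : ST_INSC := by
  intro Γ L B N hL l
  induction l with
  | nil =>
    intro t
    exact Cons.le 0 0
  | cons it l ih =>
    intro t
    refine Cons.and (cons_ren Γ _ _ ?_) (ih (t + 1))
    by_cases h : it.1 < L.length
    · rw [List.getD_eq_getElem _ _ h]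
      exact hL _ (List.getElem_mem h)
    · rw [List.getD_eq_default _ _ (Nat.le_of_not_lt h)]
      exact Cons.le 0 0

end Pool.Agent.Helper7.DI
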