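import Pool.Agent.Helper54.DI.StmtsC

namespace Pool.Agent.Helper7.DI

open Finset Filter Topology Pool.Agent.Helper54.DI

theorem locp_cont {d : ℕ} (g : MvPolynomial (Fin d) KK) :
    Continuous fun x : Fin d → ℝ => MvPolynomial.aeval x g := by
  induction g using MvPolynomial.induction_on with
  | C a =>
    simp only [MvPolynomial.aeval_C]
    exact continuous_const
  | add p q hp hq =>
    simp only [map_add]
    exact hp.add hq
  | mul_X p i hp =>
    simp only [map_mul, MvPolynomial.aeval_X]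
    exact hp.mul (continuous_apply i)

theorem st_LOCP (p1 : ST_P1) (z2a : ST_Z2A) (z2b : ST_Z2B) (p3 : ST_P3) : ST_LOCP := by
  intro d A hA hS
  obtain ⟨P, c, hPp, _, ha, hb, hV, hne⟩ := p1 d A hA hS
  obtain ⟨J, hD⟩ := z2a d P hPp
  obtain ⟨h, hhP, hloc⟩ := z2b d P hPp J hD
  obtain ⟨w, hwA, hwc, hwh⟩ := hb h hhP
  obtain ⟨F, hF⟩ := hloc w (fun g hg => ha g hg w hwA hwc) hwh
  obtain ⟨l, hl, haff⟩ := p3 d P J w F hF hne
  refine ⟨w, J, l, F, hl, hF.smooth, hF.fix, hF.dep, hF.idJ, haff, ?_⟩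
  have e1 : ∀ᶠ x in 𝓝 w, MvPolynomial.aeval x c ≠ 0 :=
    (locp_cont c).continuousAt.eventually_ne hwc
  filter_upwards [e1, hF.zero] with x hx1 hx2
  constructor
  · intro hxA
    exact hx2.mp fun g hg => ha g hg x hxA hx1
  · intro hxF
    exact hV x (hx2.mpr hxF)

end Pool.Agent.Helper7.DI
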